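import Mathlib
import Pool.Agent.H759R2.Kad.Defs
import Pool.Agent.H759R2.Kad.Props
import Pool.Agent.H759R2.Kad.Props2
import Pool.Agent.H759R2.Kad.Props3
import Pool.Agent.H759R2.Kad.Props4
import Pool.Agent.H759R2.Kad.Props5

/-!
Interface between the three parts of the solution of the derivation problem:
`V_*` : structure of von Neumann algebras, `FA_*` : fibre algebras.
-/

open scoped ComplexOrder InnerProductSpace ComplexConjugate
open Finset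

noncomputable section

namespace H710R2.DP

open H759R2.Kad

universe u v

section vn

variable {H : Type u} [NormedAddCommGroup H] [InnerProductSpace ℂ H] [CompleteSpace H]

/-- `z` is in the centre of `M`. -/
def IsCen (M : VonNeumannAlgebra H) (z : H →L[ℂ] H) : Prop := z ∈ M ∧ ∀ a ∈ M, z * a = a * z

/-- `p` is a central projection of `M`. -/
def IsCP (M : VonNeumannAlgebra H) (p : H →L[ℂ] H) : Prop := IsPr p ∧ IsCen M p

/-- Matrix units in `M` with sum `p`. -/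
structure MU (M : VonNeumannAlgebra H) (p : H →L[ℂ] H) (L : ℕ)
    (e : Fin L → Fin L → (H →L[ℂ] H)) : Prop where
  mem : ∀ i j, e i j ∈ M
  adj : ∀ i j, star (e i j) = e j i
  mul : ∀ i j k l, e i j * e k l = if j = k then e i l else 0
  sum : ∑ i, e i i = p

/-- `p M` is the algebra of `n × n` matrices over its centre (`n ≥ 1`). -/
def PieceA (M : VonNeumannAlgebra H) (p : H →L[ℂ] H) : Prop :=
  ∃ (n : ℕ) (e : Fin (n + 1) → Fin (n + 1) → (H →L[ℂ] H)), MU M p (n + 1) e ∧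
    ∀ x ∈ M, ∀ ε : ℝ, 0 < ε → ∃ z, IsCen M z ∧ ‖e 0 0 * x * e 0 0 - z * e 0 0‖ ≤ ε

/-- `p M` contains arbitrarily large unital matrix algebras, whose relative commutants in `p M`
again contain arbitrarily large unital matrix algebras. -/
def PieceB (M : VonNeumannAlgebra H) (p : H →L[ℂ] H) : Prop :=
  ∀ L₀ : ℕ, ∃ L, L₀ ≤ L ∧ ∃ e : Fin L → Fin L → (H →L[ℂ] H), MU M p L e ∧
    ∀ K₀ : ℕ, ∃ K, K₀ ≤ K ∧ ∃ f : Fin K → Fin K → (H →L[ℂ] H), MU M p K f ∧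
      ∀ i j a b, e i j * f a b = f a b * e i j

end vn

/-- Structure theorem. -/
def V_struct : Prop :=
  ∀ (H : Type u) [NormedAddCommGroup H] [InnerProductSpace ℂ H] [CompleteSpace H]
    (M : VonNeumannAlgebra H) (q : H →L[ℂ] H), IsCP M q → q ≠ 0 →
    ∃ p, IsCP M p ∧ p ≠ 0 ∧ q * p = p ∧ (PieceA M p ∨ PieceB M p)

/-- Dixmier approximation theorem with limits in the centre. -/
def V_dix : Prop :=
  ∀ (H : Type u) [NormedAddCommGroup H] [InnerProductSpace ℂ H] [CompleteSpace H]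
    (M : VonNeumannAlgebra H), ∀ x ∈ M, IsSelfAdjoint x → ∀ ε : ℝ, 0 < ε →
    ∃ (N : ℕ) (g : Fin (N + 1) → (H →L[ℂ] H)) (z : H →L[ℂ] H),
      (∀ k, g k ∈ M ∧ g k * star (g k) = 1 ∧ star (g k) * g k = 1) ∧ IsCen M z ∧
      IsSelfAdjoint z ∧ ‖((N + 1 : ℂ))⁻¹ • ∑ k, g k * x * star (g k) - z‖ ≤ ε

/-- Self-adjoint elements can be averaged to scalars. -/
def ScalarDix (B : Type u) [CStarAlgebra B] : Prop :=
  ∀ a : B, IsSelfAdjoint a → ∀ ε : ℝ, 0 < ε → ∃ (c : ℝ) (N : ℕ) (g : Fin (N + 1) → unitary B),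
    ‖((N + 1 : ℂ))⁻¹ • ∑ k, (g k : B) * a * star (g k : B) - algebraMap ℂ B (c : ℂ)‖ ≤ ε

/-- Arbitrarily large unital matrix algebras. -/
def BigMat (B : Type u) [CStarAlgebra B] : Prop :=
  ∀ K₀ : ℕ, ∃ K, K₀ ≤ K ∧ ∃ f : Fin K → Fin K → B, (∀ i j, star (f i j) = f j i) ∧
    (∀ i j k l, f i j * f k l = if j = k then f i l else 0) ∧ ∑ i, f i i = 1

/-- `A = M_L(N)` for arbitrarily large `L`, with `N` as above. -/
def MatClass (A : Type u) [CStarAlgebra A] : Prop :=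
  ∀ L₀ : ℕ, ∃ L, L₀ ≤ L ∧ ∃ (N : Type u) (_ : CStarAlgebra N) (_ : PartialOrder N)
    (_ : StarOrderedRing N), ScalarDix N ∧ BigMat N ∧
      Nonempty (A ≃⋆ₐ[ℂ] CStarMatrix (Fin L) (Fin L) N)

/-- Bounded homomorphisms of fibre algebras without finite dimensional fibres. -/
def FA_B : Prop :=
  ∃ C₀ : ℝ, 0 ≤ C₀ ∧ ∀ (A : Type u) [CStarAlgebra A] [PartialOrder A] [StarOrderedRing A],
    MatClass A → ∀ (H : Type v) [NormedAddCommGroup H] [InnerProductSpace ℂ H] [CompleteSpace H]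
    (w : A →ₗ[ℂ] (H →L[ℂ] H)), IsHom w → ∀ c : ℝ, 1 ≤ c → (∀ a, ‖w a‖ ≤ c * ‖a‖) →
    ∀ m, LvlBd w m (C₀ * c ^ 23)

/-- Bounded homomorphisms of full matrix algebras. -/
def FA_A : Prop :=
  ∀ (A : Type u) [CStarAlgebra A] [PartialOrder A] [StarOrderedRing A] (n : ℕ),
    Nonempty (A ≃⋆ₐ[ℂ] CStarMatrix (Fin (n + 1)) (Fin (n + 1)) ℂ) →
    ∀ (H : Type v) [NormedAddCommGroup H] [InnerProductSpace ℂ H] [CompleteSpace H]
    (w : A →ₗ[ℂ] (H →L[ℂ] H)), IsHom w → ∀ c : ℝ, 1 ≤ c → (∀ a, ‖w a‖ ≤ c * ‖a‖) →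
    ∀ m, LvlBd w m (c ^ 2)

end H710R2.DP
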