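import Mathlib
import Pool.Agent.H710R2.DP.Defs

/-!
Second part of the interface: extension, localisation, gluing, assembly. Everything in `Type`.
-/

open scoped ComplexOrder InnerProductSpace ComplexConjugate
open Finset

noncomputable section

namespace H710R2.DP

open H759R2.Kad

/-- `D` is a derivation with respect to `π`, with bound `d`. -/
structure IsDerB {A : Type} [CStarAlgebra A] {H : Type} [NormedAddCommGroup H]
    [InnerProductSpace ℂ H] [CompleteSpace H] (π : A →⋆ₐ[ℂ] (H →L[ℂ] H))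
    (D : A →ₗ[ℂ] (H →L[ℂ] H)) (d : ℝ) : Prop where
  leib : ∀ a b, D (a * b) = π a * D b + D a * π b
  bound : ∀ a, ‖D a‖ ≤ d * ‖a‖

/-- The inclusion of a von Neumann algebra. -/
def inc {H : Type} [NormedAddCommGroup H] [InnerProductSpace ℂ H] [CompleteSpace H]
    (M : VonNeumannAlgebra H) : M.toStarSubalgebra →⋆ₐ[ℂ] (H →L[ℂ] H) :=
  M.toStarSubalgebra.subtype

/-- Extension of a derivation to the von Neumann algebra generated by the image. -/
def X_ext : Prop :=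
  ∀ (A : Type) [CStarAlgebra A] (H : Type) [NormedAddCommGroup H] [InnerProductSpace ℂ H]
    [CompleteSpace H] (π : A →⋆ₐ[ℂ] (H →L[ℂ] H)) (D : A →ₗ[ℂ] (H →L[ℂ] H)) (d : ℝ), 0 ≤ d →
    IsDerB π D d → ∃ (W : VonNeumannAlgebra H) (E : W.toStarSubalgebra →ₗ[ℂ] (H →L[ℂ] H)),
      IsDerB (inc W) E d ∧ ∀ a : A, ∃ x : W.toStarSubalgebra, (x : H →L[ℂ] H) = π a ∧ E x = D a

/-- After an inner perturbation a derivation vanishes on the centre. -/
def Z_zero : Prop :=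
  ∀ (H : Type) [NormedAddCommGroup H] [InnerProductSpace ℂ H] [CompleteSpace H]
    (M : VonNeumannAlgebra H) (E : M.toStarSubalgebra →ₗ[ℂ] (H →L[ℂ] H)) (d : ℝ), 0 ≤ d →
    IsDerB (inc M) E d → ∃ T : H →L[ℂ] H, ‖T‖ ≤ d ∧
      ∀ x : M.toStarSubalgebra, IsCen M (x : H →L[ℂ] H) →
        E x = T * (x : H →L[ℂ] H) - (x : H →L[ℂ] H) * T

/-- Bound for the matrices over `p M`. -/
def PBd {H : Type} [NormedAddCommGroup H] [InnerProductSpace ℂ H] [CompleteSpace H]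
    (M : VonNeumannAlgebra H) [PartialOrder M.toStarSubalgebra]
    [StarOrderedRing M.toStarSubalgebra]
    (E : M.toStarSubalgebra →ₗ[ℂ] (H →L[ℂ] H)) (p : H →L[ℂ] H) (m : ℕ) (C : ℝ) : Prop :=
  ∀ X : CStarMatrix (Fin m) (Fin m) M.toStarSubalgebra,
    (∀ i j, p * (X i j : H →L[ℂ] H) = X i j) → ‖amp E (Fin m) X‖ ≤ C * ‖X‖

/-- Gluing over the central projections. -/
def G_glue : Prop :=
  ∀ (H : Type) [NormedAddCommGroup H] [InnerProductSpace ℂ H] [CompleteSpace H]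
    (M : VonNeumannAlgebra H) [PartialOrder M.toStarSubalgebra]
    [StarOrderedRing M.toStarSubalgebra]
    (E : M.toStarSubalgebra →ₗ[ℂ] (H →L[ℂ] H)) (d : ℝ), 0 ≤ d → IsDerB (inc M) E d →
    (∀ x : M.toStarSubalgebra, IsCen M (x : H →L[ℂ] H) → E x = 0) →
    ∀ (m : ℕ) (C : ℝ), 0 ≤ C →
    (∀ q, IsCP M q → q ≠ 0 → ∃ p, IsCP M p ∧ p ≠ 0 ∧ q * p = p ∧ PBd M E p m C) →
    LvlBd E m C

/-- Localisation: it suffices to treat homomorphisms of the fibre algebras of `p M`. -/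
def P_fib : Prop :=
  ∀ (H : Type) [NormedAddCommGroup H] [InnerProductSpace ℂ H] [CompleteSpace H]
    (M : VonNeumannAlgebra H) [PartialOrder M.toStarSubalgebra]
    [StarOrderedRing M.toStarSubalgebra]
    (E : M.toStarSubalgebra →ₗ[ℂ] (H →L[ℂ] H)) (d : ℝ), 0 ≤ d → IsDerB (inc M) E d →
    (∀ x : M.toStarSubalgebra, IsCen M (x : H →L[ℂ] H) → E x = 0) →
    ∀ (p : H →L[ℂ] H), IsCP M p → ∀ (m : ℕ) (C : ℝ), 0 ≤ C →
    (∀ (B : Type) [CStarAlgebra B] [PartialOrder B] [StarOrderedRing B]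
      (φ : M.toStarSubalgebra →⋆ₐ[ℂ] B), Function.Surjective φ →
      (∀ x : M.toStarSubalgebra, IsCen M (x : H →L[ℂ] H) → ∃ c : ℂ, φ x = algebraMap ℂ B c) →
      (∀ x : M.toStarSubalgebra, (x : H →L[ℂ] H) = p → φ x = 1) →
      ∀ (K : Type) [NormedAddCommGroup K] [InnerProductSpace ℂ K] [CompleteSpace K]
        (w : B →ₗ[ℂ] (K →L[ℂ] K)), IsHom w → (∀ b, ‖w b‖ ≤ 2 * ‖b‖) → LvlBd w m C) →
    PBd M E p m (C * d)

/-- Fibres of pieces of the first kind. -/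
def R_A : Prop :=
  ∀ (H : Type) [NormedAddCommGroup H] [InnerProductSpace ℂ H] [CompleteSpace H]
    (M : VonNeumannAlgebra H) (p : H →L[ℂ] H), IsCP M p → PieceA M p →
    ∀ (B : Type) [CStarAlgebra B] [PartialOrder B] [StarOrderedRing B]
      (φ : M.toStarSubalgebra →⋆ₐ[ℂ] B), Function.Surjective φ →
      (∀ x : M.toStarSubalgebra, IsCen M (x : H →L[ℂ] H) → ∃ c : ℂ, φ x = algebraMap ℂ B c) →
      (∀ x : M.toStarSubalgebra, (x : H →L[ℂ] H) = p → φ x = 1) → Nontrivial B →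
      ∃ n : ℕ, Nonempty (B ≃⋆ₐ[ℂ] CStarMatrix (Fin (n + 1)) (Fin (n + 1)) ℂ)

/-- Fibres of pieces of the second kind. -/
def R_B : Prop :=
  ∀ (H : Type) [NormedAddCommGroup H] [InnerProductSpace ℂ H] [CompleteSpace H]
    (M : VonNeumannAlgebra H) (p : H →L[ℂ] H), IsCP M p → PieceB M p →
    ∀ (B : Type) [CStarAlgebra B] [PartialOrder B] [StarOrderedRing B]
      (φ : M.toStarSubalgebra →⋆ₐ[ℂ] B), Function.Surjective φ →
      (∀ x : M.toStarSubalgebra, IsCen M (x : H →L[ℂ] H) → ∃ c : ℂ, φ x = algebraMap ℂ B c) →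
      (∀ x : M.toStarSubalgebra, (x : H →L[ℂ] H) = p → φ x = 1) → MatClass B

/-- Level bounds for all derivations of von Neumann algebras. -/
def W_lvl : Prop :=
  ∃ C : ℝ, 0 ≤ C ∧ ∀ (H : Type) [NormedAddCommGroup H] [InnerProductSpace ℂ H] [CompleteSpace H]
    (M : VonNeumannAlgebra H) [PartialOrder M.toStarSubalgebra]
    [StarOrderedRing M.toStarSubalgebra]
    (E : M.toStarSubalgebra →ₗ[ℂ] (H →L[ℂ] H)) (d : ℝ), 0 ≤ d → IsDerB (inc M) E d →
    ∀ m, LvlBd E m (C * d)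

/-- Every bounded derivation of a unital C*-algebra is inner. -/
def U_main : Prop :=
  ∀ (A : Type) [CStarAlgebra A] (H : Type) [NormedAddCommGroup H] [InnerProductSpace ℂ H]
    [CompleteSpace H] (π : A →⋆ₐ[ℂ] (H →L[ℂ] H)) (D : A →ₗ[ℂ] (H →L[ℂ] H)) (d : ℝ), 0 ≤ d →
    IsDerB π D d → ∃ T : H →L[ℂ] H, ∀ a, D a = T * π a - π a * T

end H710R2.DP
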