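import Mathlib
import Pool.Agent.H710R2.DP.Defs
import Pool.Agent.H710R2.DP.Defs2

/-!
Sub-statements for the parts `Z_zero`, `G_glue`, `R_A`, `R_B`.
-/

open scoped ComplexOrder InnerProductSpace ComplexConjugate
open Finset

noncomputable section

namespace H710R2.DP

open H759R2.Kad

/-- One binary digit of a positive element of a von Neumann algebra. -/
def Z_bin : Prop :=
  ∀ (H : Type) [NormedAddCommGroup H] [InnerProductSpace ℂ H] [CompleteSpace H]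
    (M : VonNeumannAlgebra H) (x : H →L[ℂ] H) (r : ℝ), x ∈ M → 0 ≤ x →
    x ≤ algebraMap ℝ (H →L[ℂ] H) r →
    ∃ e ∈ M, IsPr e ∧ (∀ y : H →L[ℂ] H, y * x = x * y → y * e = e * y) ∧
      0 ≤ x - (r / 2) • e ∧ x - (r / 2) • e ≤ algebraMap ℝ (H →L[ℂ] H) (r / 2)

/-- Central elements are norm limits of combinations of central projections. -/
def Z_span : Prop :=
  ∀ (H : Type) [NormedAddCommGroup H] [InnerProductSpace ℂ H] [CompleteSpace H]
    (M : VonNeumannAlgebra H) (x : H →L[ℂ] H), IsCen M x → ∀ ε : ℝ, 0 < ε →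
    ∃ (n : ℕ) (c : Fin n → ℂ) (p : Fin n → (H →L[ℂ] H)), (∀ k, IsCP M (p k)) ∧
      ‖x - ∑ k, c k • p k‖ ≤ ε

/-- Averaging over a finite group of central symmetries. -/
def Z_fin : Prop :=
  ∀ (H : Type) [NormedAddCommGroup H] [InnerProductSpace ℂ H] [CompleteSpace H]
    (M : VonNeumannAlgebra H) (E : M.toStarSubalgebra →ₗ[ℂ] (H →L[ℂ] H)) (d : ℝ), 0 ≤ d →
    IsDerB (inc M) E d → ∀ P : Finset (H →L[ℂ] H), (∀ p ∈ P, IsCP M p) →
    ∃ T : H →L[ℂ] H, ‖T‖ ≤ d ∧ ∀ x : M.toStarSubalgebra, (x : H →L[ℂ] H) ∈ P →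
      E x = T * (x : H →L[ℂ] H) - (x : H →L[ℂ] H) * T

/-- Weak operator limits of bounded families along ultrafilters. -/
def Z_ulim : Prop :=
  ∀ (H : Type) [NormedAddCommGroup H] [InnerProductSpace ℂ H] [CompleteSpace H]
    (I : Type) (U : Ultrafilter I) (T : I → (H →L[ℂ] H)) (d : ℝ), (∀ i, ‖T i‖ ≤ d) →
    ∃ S : H →L[ℂ] H, ‖S‖ ≤ d ∧ ∀ ξ η : H,
      Filter.Tendsto (fun i => ⟪η, T i ξ⟫_ℂ) U (nhds ⟪η, S ξ⟫_ℂ)

/-- The relative commutant of a system of matrix units. -/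
def R_comm : Prop :=
  ∀ (H : Type) [NormedAddCommGroup H] [InnerProductSpace ℂ H] [CompleteSpace H]
    (M : VonNeumannAlgebra H) (p : H →L[ℂ] H), IsCP M p → ∀ (L : ℕ) (i₀ : Fin L)
    (e : Fin L → Fin L → (H →L[ℂ] H)), MU M p L e →
    ∃ N₀ : VonNeumannAlgebra H, (∀ y, y ∈ N₀ ↔ y ∈ M ∧ ∀ i j, e i j * y = y * e i j) ∧
      (∀ z, IsCen N₀ z → IsCen M z) ∧ ∀ y ∈ M, (∑ k, e k i₀ * y * e i₀ k) ∈ N₀

/-- An algebra with matrix units is a matrix algebra over the relative commutant. -/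
def R_mat : Prop :=
  ∀ (B : Type) [CStarAlgebra B] (L : ℕ) (e : Fin L → Fin L → B), 0 < L →
    (∀ i j, star (e i j) = e j i) → (∀ i j k l, e i j * e k l = if j = k then e i l else 0) →
    ∑ i, e i i = 1 → ∀ (N : StarSubalgebra ℂ B),
    (∀ b, b ∈ N ↔ ∀ i j, e i j * b = b * e i j) →
    Nonempty (B ≃⋆ₐ[ℂ] CStarMatrix (Fin L) (Fin L) N)

/-- Bounded (not necessarily unital) inner derivations have level bounds. -/
def W_inner : Prop :=
  ∀ (H : Type) [NormedAddCommGroup H] [InnerProductSpace ℂ H] [CompleteSpace H]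
    (A : Type) [CStarAlgebra A] [PartialOrder A] [StarOrderedRing A]
    (π : A →⋆ₐ[ℂ] (H →L[ℂ] H)) (D D' : A →ₗ[ℂ] (H →L[ℂ] H)) (T : H →L[ℂ] H) (C : ℝ) (m : ℕ),
    0 ≤ C → (∀ a, D a = D' a + (T * π a - π a * T)) → LvlBd D' m C →
    LvlBd D m (C + 2 * ‖T‖)

/-- Level bounds of the homomorphism of a derivation. -/
def W_uD : Prop :=
  ∀ (H : Type) [NormedAddCommGroup H] [InnerProductSpace ℂ H] [CompleteSpace H]
    (A : Type) [CStarAlgebra A] [PartialOrder A] [StarOrderedRing A]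
    (π : A →⋆ₐ[ℂ] (H →L[ℂ] H)) (D : A →ₗ[ℂ] (H →L[ℂ] H)) (C : ℝ) (m : ℕ),
    0 ≤ C → LvlBd D m C → LvlBd (uD π D) m (1 + C)

/-- Level bounds pass from a derivation of the von Neumann algebra to the derivation of `A`. -/
def W_res : Prop :=
  ∀ (H : Type) [NormedAddCommGroup H] [InnerProductSpace ℂ H] [CompleteSpace H]
    (A : Type) [CStarAlgebra A] [PartialOrder A] [StarOrderedRing A]
    (B : Type) [CStarAlgebra B] [PartialOrder B] [StarOrderedRing B]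
    (φ : A →⋆ₐ[ℂ] B) (D : A →ₗ[ℂ] (H →L[ℂ] H)) (E : B →ₗ[ℂ] (H →L[ℂ] H)) (C : ℝ) (m : ℕ),
    0 ≤ C → (∀ a, D a = E (φ a)) → LvlBd E m C → LvlBd D m C

/-- Unitization. -/
def U_unit : Prop :=
  ∀ (A : Type) [NonUnitalCStarAlgebra A]
      (H : Type) [NormedAddCommGroup H] [InnerProductSpace ℂ H] [CompleteSpace H]
      (π : A →⋆ₙₐ[ℂ] (H →L[ℂ] H)) (δ : A →L[ℂ] (H →L[ℂ] H)),
      (∀ a b : A, δ (a * b) = π a * δ b + δ a * π b) →
      ∃ T : H →L[ℂ] H, ∀ a : A, δ a = π a * T - T * π a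

end H710R2.DP
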