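import Mathlib
import Pool.Agent.H710R2.DP.Defs
import Pool.Agent.H710R2.DP.Defs2
import Pool.Agent.H710R2.DP.Tasks

/-!
Sub-statements for the structure theorem `V_struct` and the approximation theorem `V_dix`.
-/

open scoped ComplexOrder InnerProductSpace ComplexConjugate
open Finset

noncomputable section

namespace H710R2.DP

open H759R2.Kad

section defs

variable {H : Type} [NormedAddCommGroup H] [InnerProductSpace ℂ H] [CompleteSpace H]

/-- `e M e` is (approximately) `Z e`. -/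
def IsAb (M : VonNeumannAlgebra H) (e : H →L[ℂ] H) : Prop :=
  ∀ x ∈ M, ∀ ε : ℝ, 0 < ε → ∃ z, IsCen M z ∧ ‖e * x * e - z * e‖ ≤ ε

/-- `q` has no nonzero abelian subprojection. -/
def NoAb (M : VonNeumannAlgebra H) (q : H →L[ℂ] H) : Prop :=
  ∀ e ∈ M, IsPr e → q * e = e → IsAb M e → e = 0

end defs

/-- Projection onto the closed span of the ranges of a family. -/
def V_span : Prop :=
  ∀ (H : Type) [NormedAddCommGroup H] [InnerProductSpace ℂ H] [CompleteSpace H]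
    (M : VonNeumannAlgebra H) (S : Set (H →L[ℂ] H)), (∀ v ∈ S, v ∈ M) →
    ∃ f ∈ M, IsPr f ∧ (∀ v ∈ S, f * v = v) ∧
      ∀ y : H →L[ℂ] H, (∀ v ∈ S, y * v = 0) → y * f = 0

/-- Central support. -/
def V_supp : Prop :=
  ∀ (H : Type) [NormedAddCommGroup H] [InnerProductSpace ℂ H] [CompleteSpace H]
    (M : VonNeumannAlgebra H), ∀ p ∈ M, ∃ z, IsCP M z ∧ z * p = p ∧
      ∀ y : H →L[ℂ] H, (∀ a ∈ M, y * a * p = 0) → y * z = 0

/-- Comparison of projections. -/
def V_comp : Prop :=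
  ∀ (H : Type) [NormedAddCommGroup H] [InnerProductSpace ℂ H] [CompleteSpace H]
    (M : VonNeumannAlgebra H), ∀ p ∈ M, ∀ q ∈ M, IsPr p → IsPr q →
    ∃ v ∈ M, IsPI v ∧ v * p = v ∧ q * v = v ∧
      ∃ z, IsCP M z ∧ z * (q - v * star v) = 0 ∧ (1 - z) * (p - star v * v) = 0

/-- One step of the averaging. -/
def V_step : Prop :=
  ∀ (H : Type) [NormedAddCommGroup H] [InnerProductSpace ℂ H] [CompleteSpace H]
    (M : VonNeumannAlgebra H) (x z₀ : H →L[ℂ] H) (r : ℝ), x ∈ M → IsSelfAdjoint x →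
    IsCen M z₀ → IsSelfAdjoint z₀ → ‖x - z₀‖ ≤ r →
    ∃ u ∈ M, star u = u ∧ u * u = 1 ∧ ∃ z₁, IsCen M z₁ ∧ IsSelfAdjoint z₁ ∧
      ‖(1 / 2 : ℂ) • (x + u * x * u) - z₁‖ ≤ 3 / 4 * r

/-- A projection without nonzero square zero partial isometries is abelian. -/
def V_ab : Prop :=
  ∀ (H : Type) [NormedAddCommGroup H] [InnerProductSpace ℂ H] [CompleteSpace H]
    (M : VonNeumannAlgebra H) (r : H →L[ℂ] H), r ∈ M → IsPr r →
    (∀ v ∈ M, IsPI v → r * v = v → v * r = v → v * v = 0 → v = 0) → IsAb M r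

/-- Halving. -/
def V_half : Prop :=
  ∀ (H : Type) [NormedAddCommGroup H] [InnerProductSpace ℂ H] [CompleteSpace H]
    (M : VonNeumannAlgebra H) (q : H →L[ℂ] H), q ∈ M → IsPr q → NoAb M q →
    ∃ v ∈ M, v * v = 0 ∧ star v * v + v * star v = q

/-- Matrix units of size `2 ^ k`. -/
def V_mu : Prop :=
  ∀ (H : Type) [NormedAddCommGroup H] [InnerProductSpace ℂ H] [CompleteSpace H]
    (M : VonNeumannAlgebra H) (q : H →L[ℂ] H), q ∈ M → IsPr q → NoAb M q → ∀ k : ℕ,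
    ∃ e : Fin (2 ^ k) → Fin (2 ^ k) → (H →L[ℂ] H), MU M q (2 ^ k) e

/-- Without abelian projections: pieces of the second kind. -/
def V_B1 : Prop :=
  ∀ (H : Type) [NormedAddCommGroup H] [InnerProductSpace ℂ H] [CompleteSpace H]
    (M : VonNeumannAlgebra H) (p : H →L[ℂ] H), IsCP M p → NoAb M p → PieceB M p

/-- Subprojections of an abelian projection. -/
def V_sub : Prop :=
  ∀ (H : Type) [NormedAddCommGroup H] [InnerProductSpace ℂ H] [CompleteSpace H]
    (M : VonNeumannAlgebra H) (e : H →L[ℂ] H), e ∈ M → IsPr e → IsAb M e →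
    ∀ E ∈ M, IsPr E → e * E = E → ∃ c, IsCP M c ∧ E = c * e ∧
      ∀ w, IsCP M w → w * E = E → w * c = c

/-- An abelian projection is dominated by every projection with the same central support. -/
def V_absorb : Prop :=
  ∀ (H : Type) [NormedAddCommGroup H] [InnerProductSpace ℂ H] [CompleteSpace H]
    (M : VonNeumannAlgebra H) (e r : H →L[ℂ] H), e ∈ M → r ∈ M → IsPr e → IsPr r → IsAb M e →
    (∀ w, IsCP M w → (w * r = r ↔ w * e = e)) → ∃ v ∈ M, star v * v = e ∧ r * v = v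

/-- Homogeneous pieces. -/
def V_abel : Prop :=
  ∀ (H : Type) [NormedAddCommGroup H] [InnerProductSpace ℂ H] [CompleteSpace H]
    (M : VonNeumannAlgebra H) (e : H →L[ℂ] H), e ∈ M → IsPr e → e ≠ 0 → IsAb M e →
    ∃ p, IsCP M p ∧ p ≠ 0 ∧ (∀ z, IsCP M z → z * e = e → z * p = p) ∧
      ∃ (I : Type) (v : I → (H →L[ℂ] H)), Nonempty I ∧ (∀ i, v i ∈ M ∧
        star (v i) * v i = p * e) ∧ (∀ i j, i ≠ j → star (v i) * v j = 0) ∧
        (∀ i, p * v i = v i) ∧ ∀ y : H →L[ℂ] H, (∀ i, y * v i = 0) → y * p = 0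

/-- Strong sums of partial isometries. -/
def V_sum : Prop :=
  ∀ (H : Type) [NormedAddCommGroup H] [InnerProductSpace ℂ H] [CompleteSpace H]
    (M : VonNeumannAlgebra H) (T : Type) (w : T → (H →L[ℂ] H)), (∀ t, w t ∈ M ∧ IsPI (w t)) →
    (∀ s t, s ≠ t → star (w s) * w t = 0 ∧ w s * star (w t) = 0) →
    ∃ W ∈ M, (∀ t, W * (star (w t) * w t) = w t) ∧ (∀ t, star W * (w t * star (w t)) = star (w t)) ∧
      ∀ a b : H →L[ℂ] H, (∀ t, a * w t * b = 0) → a * W * b = 0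

/-- Infinite homogeneous pieces. -/
def V_inf : Prop :=
  ∀ (H : Type) [NormedAddCommGroup H] [InnerProductSpace ℂ H] [CompleteSpace H]
    (M : VonNeumannAlgebra H) (p e : H →L[ℂ] H), IsCP M p → IsPr e → ∀ (I : Type) [Infinite I]
    (v : I → (H →L[ℂ] H)), (∀ i, v i ∈ M ∧ star (v i) * v i = e) →
    (∀ i j, i ≠ j → star (v i) * v j = 0) → (∀ i, p * v i = v i) →
    (∀ y : H →L[ℂ] H, (∀ i, y * v i = 0) → y * p = 0) → PieceB M p

/-- Finite homogeneous pieces. -/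
def V_fin : Prop :=
  ∀ (H : Type) [NormedAddCommGroup H] [InnerProductSpace ℂ H] [CompleteSpace H]
    (M : VonNeumannAlgebra H) (p e : H →L[ℂ] H), IsCP M p → e ∈ M → IsPr e → IsAb M e →
    ∀ (I : Type) [Finite I] [Nonempty I] (v : I → (H →L[ℂ] H)),
    (∀ i, v i ∈ M ∧ star (v i) * v i = e) →
    (∀ i j, i ≠ j → star (v i) * v j = 0) → (∀ i, p * v i = v i) →
    (∀ y : H →L[ℂ] H, (∀ i, y * v i = 0) → y * p = 0) → PieceA M p

end H710R2.DP
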