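import Mathlib
import Pool.Agent.H710R2.DP.Defs
import Pool.Agent.H711R2.KG.Props

/-!
Sub-statements for the fibre algebras `FA_A`, `FA_B`.
-/

open scoped ComplexOrder InnerProductSpace ComplexConjugate
open Finset

noncomputable section

namespace H710R2.DP

open H759R2.Kad

/-- `c` is an averaging constant of `a`. -/
def AvgConst {B : Type} [CStarAlgebra B] (a : B) (c : ℝ) : Prop :=
  ∀ ε : ℝ, 0 < ε → ∃ (N : ℕ) (g : Fin (N + 1) → unitary B),
    ‖((N + 1 : ℂ))⁻¹ • ∑ k, (g k : B) * a * star (g k : B) - algebraMap ℂ B (c : ℂ)‖ ≤ ε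

/-- Two different averaging constants. -/
def F_two : Prop :=
  ∀ (B : Type) [CStarAlgebra B] [PartialOrder B] [StarOrderedRing B] (a : B) (α β : ℝ),
    IsSelfAdjoint a → α < β → AvgConst a α → AvgConst a β →
    ∃ (k : ℕ) (r : Fin k → B) (ρ : ℝ), 0 ≤ ρ ∧ ρ < 1 ∧ ∑ i, star (r i) * r i = 1 ∧
      ‖∑ i, r i * star (r i)‖ ≤ ρ

/-- Every self-adjoint element has an averaging constant. -/
def F_const : Prop :=
  ∀ (B : Type) [CStarAlgebra B] [PartialOrder B] [StarOrderedRing B], ScalarDix B →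
    ∀ a : B, IsSelfAdjoint a → ∃ c : ℝ, AvgConst a c

/-- Unique averaging constants give a tracial state. -/
def F_trace : Prop :=
  ∀ (B : Type) [CStarAlgebra B] [PartialOrder B] [StarOrderedRing B], Nontrivial B →
    (∀ a : B, IsSelfAdjoint a → ∃! c : ℝ, AvgConst a c) →
    ∃ τ : B →ₗ[ℂ] ℂ, IsTracialState τ ∧ HasDixmier τ

/-- Matrix units give orthogonal unitaries. -/
def F_bigorth : Prop :=
  ∀ (B : Type) [CStarAlgebra B] [PartialOrder B] [StarOrderedRing B] (τ : B →ₗ[ℂ] ℂ),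
    IsTracialState τ → BigMat B → HasOrth τ

/-- Words in matrix algebras. -/
def F_words : Prop :=
  ∀ (A : Type) [CStarAlgebra A] (N : Type) [CStarAlgebra N] [PartialOrder N]
    [StarOrderedRing N] (L : ℕ), Nonempty (A ≃⋆ₐ[ℂ] CStarMatrix (Fin L) (Fin L) N) →
    H711R2.KG.HasWords N → H711R2.KG.HasWords A

end H710R2.DP
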