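import Mathlib
import Pool.Agent.H710R2.DP.Defs
import Pool.Agent.H710R2.DP.Defs2
import Pool.Agent.H710R2.DP.Tasks
import Pool.Agent.H710R2.DP.FTasks

/-!
Assembly of the derivation problem from its pieces.
-/

open scoped ComplexOrder InnerProductSpace ComplexConjugate
open Finset

noncomputable section

namespace H710R2.DP

open H759R2.Kad

/-- Fibre algebras of the second kind. -/
theorem asm_FA_B (hK : K_final.{0, 0}) (hiso : K_iso.{0, 0}) (hword : H711R2.KG.A_word.{0})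
    (hmat : H711R2.KG.A_mat.{0, 0}) (h2 : F_two) (hc : F_const) (ht : F_trace)
    (ho : F_bigorth) (hw : F_words) : FA_B.{0, 0} := by
  refine ⟨216, by norm_num, ?_⟩
  intro A _ _ _ hA H _ _ _ w hwh c hc1 hwb m
  rcases Nat.eq_zero_or_pos m with hm | hm
  · subst hm
    intro Y
    have h0 : amp w (Fin 0) Y = 0 := by
      ext ξ i
      exact i.elim0
    rw [h0, norm_zero]
    positivity
  obtain ⟨L, hL, N, _, _, _, hsd, hbm, ⟨φ⟩⟩ := hA (25920 * m ^ 11)
  by_cases hNw : H711R2.KG.HasWords N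
  · have hAw : H711R2.KG.HasWords A := hw A N L ⟨φ⟩ hNw
    have hl := hmat A H w hwh c (by linarith) hwb hAw m
    intro Y
    refine (hl Y).trans (mul_le_mul_of_nonneg_right ?_ (norm_nonneg _))
    have h1 : c ^ 4 ≤ c ^ 23 := pow_le_pow_right₀ hc1 (by norm_num)
    have h2' : 0 ≤ c ^ 4 := by positivity
    nlinarith
  · have hnt : Nontrivial N := by
      by_contra h
      rw [not_nontrivial_iff_subsingleton] at h
      apply hNw
      intro ε hε
      exact ⟨0, Fin.elim0, Subsingleton.elim _ _, by simpa using hε.le⟩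
    have huniq : ∀ a : N, IsSelfAdjoint a → ∃! c : ℝ, AvgConst a c := by
      intro a ha
      obtain ⟨x, hx⟩ := hc N hsd a ha
      refine ⟨x, hx, ?_⟩
      intro y hy
      by_contra hne
      rcases lt_or_gt_of_ne hne with hlt | hlt
      · obtain ⟨k, r, ρ, h1, h2', h3, h4⟩ := h2 N a y x ha hlt hy hx
        exact hNw (hword N k r ρ h1 h2' h3 h4)
      · obtain ⟨k, r, ρ, h1, h2', h3, h4⟩ := h2 N a x y ha hlt hx hy
        exact hNw (hword N k r ρ h1 h2' h3 h4)
    obtain ⟨τ, hτ1, hτ2⟩ := ht N hnt huniq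
    have hτ3 := ho N τ hτ1 hbm
    have hmap : ∀ X : CStarMatrix (Fin L) (Fin L) N, ‖(φ.symm X : A)‖ ≤ ‖X‖ := fun X =>
      (NonUnitalStarAlgHom.norm_apply_le φ.symm X)
    let w' : CStarMatrix (Fin L) (Fin L) N →ₗ[ℂ] (H →L[ℂ] H) :=
      { toFun := fun X => w (φ.symm X)
        map_add' := fun X Y => by rw [map_add, map_add]
        map_smul' := fun r X => by rw [map_smul, map_smul, RingHom.id_apply] }
    have hw' : IsHom w' := ⟨fun X Y => by
      change w (φ.symm (X * Y)) = w (φ.symm X) * w (φ.symm Y)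
      rw [map_mul, hwh.mul], by
      change w (φ.symm 1) = 1
      rw [map_one, hwh.one]⟩
    have hwb' : ∀ X, ‖w' X‖ ≤ c * ‖X‖ := fun X =>
      (hwb _).trans (mul_le_mul_of_nonneg_left (hmap X) (by linarith))
    have hl := hK N τ hτ1 hτ2 hτ3 H L m hm hL w' hw' c hc1 hwb'
    exact hiso A (CStarMatrix (Fin L) (Fin L) N) φ H w w' _ (by positivity)
      (fun a => by change w (φ.symm (φ a)) = w a; rw [StarAlgEquiv.symm_apply_apply]) m hl

/-- Fibre algebras of the first kind. -/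
theorem asm_FA_A (hfin : H711R2.KG.B_fin.{0}) (hiso : K_iso.{0, 0}) : FA_A.{0, 0} := by
  intro A _ _ _ n ⟨φ⟩ H _ _ _ w hwh c hc1 hwb m
  have hmap : ∀ X : CStarMatrix (Fin (n + 1)) (Fin (n + 1)) ℂ, ‖(φ.symm X : A)‖ ≤ ‖X‖ := fun X =>
    (NonUnitalStarAlgHom.norm_apply_le φ.symm X)
  let w' : CStarMatrix (Fin (n + 1)) (Fin (n + 1)) ℂ →ₗ[ℂ] (H →L[ℂ] H) :=
    { toFun := fun X => w (φ.symm X)
      map_add' := fun X Y => by rw [map_add, map_add]
      map_smul' := fun r X => by rw [map_smul, map_smul, RingHom.id_apply] }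
  have hw' : IsHom w' := ⟨fun X Y => by
    change w (φ.symm (X * Y)) = w (φ.symm X) * w (φ.symm Y)
    rw [map_mul, hwh.mul], by
    change w (φ.symm 1) = 1
    rw [map_one, hwh.one]⟩
  have hwb' : ∀ X, ‖w' X‖ ≤ c * ‖X‖ := fun X =>
    (hwb _).trans (mul_le_mul_of_nonneg_left (hmap X) (by linarith))
  have hl := hfin (n + 1) H w' hw' c (by linarith) hwb' m
  exact hiso A (CStarMatrix (Fin (n + 1)) (Fin (n + 1)) ℂ) φ H w w' _ (by positivity)
    (fun a => by change w (φ.symm (φ a)) = w a; rw [StarAlgEquiv.symm_apply_apply]) m hl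

/-- Level bounds for derivations of von Neumann algebras, through pieces. -/
theorem asm_W (hz : Z_zero) (hg : G_glue) (hs : V_struct.{0}) (hp : P_fib) (hA : R_A) (hB : R_B)
    (fA : FA_A.{0, 0}) (fB : FA_B.{0, 0}) (hin : W_inner) : W_lvl := by
  obtain ⟨C₀, hC₀, hFB⟩ := fB
  refine ⟨3 * (4 + C₀ * 2 ^ 23) + 2, by positivity, ?_⟩
  intro H _ _ _ M _ _ E d hd hE m
  obtain ⟨T, hT, hTz⟩ := hz H M E d hd hE
  -- the derivation with the inner part removed
  let E' : M.toStarSubalgebra →ₗ[ℂ] (H →L[ℂ] H) :=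
    { toFun := fun x => E x - (T * (x : H →L[ℂ] H) - (x : H →L[ℂ] H) * T)
      map_add' := fun x y => by
        simp only [map_add, StarMemClass.coe_star, AddMemClass.coe_add, mul_add, add_mul]
        abel
      map_smul' := fun r x => by
        simp only [map_smul, SetLike.val_smul, RingHom.id_apply, mul_smul_comm, smul_mul_assoc,
          smul_sub] }
  have hE'a : ∀ x, E' x = E x - (T * (x : H →L[ℂ] H) - (x : H →L[ℂ] H) * T) := fun x => rfl
  have hE' : IsDerB (inc M) E' (3 * d) := by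
    refine ⟨fun a b => ?_, fun a => ?_⟩
    · rw [hE'a, hE'a, hE'a, hE.leib]
      change _ + _ - (T * ((a : H →L[ℂ] H) * (b : H →L[ℂ] H)) -
        ((a : H →L[ℂ] H) * (b : H →L[ℂ] H)) * T) =
        (a : H →L[ℂ] H) * (E b - (T * (b : H →L[ℂ] H) - (b : H →L[ℂ] H) * T)) +
        (E a - (T * (a : H →L[ℂ] H) - (a : H →L[ℂ] H) * T)) * (b : H →L[ℂ] H)
      change (a : H →L[ℂ] H) * E b + E a * (b : H →L[ℂ] H) - (T * ((a : H →L[ℂ] H) * (b : H →L[ℂ] H)) -
        ((a : H →L[ℂ] H) * (b : H →L[ℂ] H)) * T) = _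
      noncomm_ring
    · rw [hE'a]
      have h1 := hE.bound a
      have h2 : ‖T * (a : H →L[ℂ] H)‖ ≤ d * ‖a‖ :=
        (norm_mul_le _ _).trans (mul_le_mul hT le_rfl (norm_nonneg _) hd)
      have h3 : ‖(a : H →L[ℂ] H) * T‖ ≤ d * ‖a‖ := by
        refine (norm_mul_le _ _).trans ?_
        rw [mul_comm]
        exact mul_le_mul hT le_rfl (norm_nonneg _) hd
      calc ‖E a - (T * (a : H →L[ℂ] H) - (a : H →L[ℂ] H) * T)‖
          ≤ ‖E a‖ + (‖T * (a : H →L[ℂ] H)‖ + ‖(a : H →L[ℂ] H) * T‖) :=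
            (norm_sub_le _ _).trans (add_le_add_right (norm_sub_le _ _) _)
        _ ≤ 3 * d * ‖a‖ := by linarith
  have hz' : ∀ x : M.toStarSubalgebra, IsCen M (x : H →L[ℂ] H) → E' x = 0 := by
    intro x hx
    rw [hE'a, hTz x hx, sub_self]
  have key : LvlBd E' m ((4 + C₀ * 2 ^ 23) * (3 * d)) := by
    refine hg H M E' (3 * d) (by positivity) hE' hz' m _ (by positivity) ?_
    intro q hq hq0
    obtain ⟨p, hpc, hp0, hqp, hpc'⟩ := hs H M q hq hq0
    refine ⟨p, hpc, hp0, hqp, ?_⟩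
    refine hp H M E' (3 * d) (by positivity) hE' hz' p hpc m _ (by positivity) ?_
    intro B _ _ _ φ hφ hφc hφp K _ _ _ w hw hwb Y
    rcases subsingleton_or_nontrivial B with hsub | hnt
    · have : Y = 0 := by
        ext i j
        exact Subsingleton.elim _ _
      rw [this]
      simp
    · rcases hpc' with hPA | hPB
      · obtain ⟨n, hn⟩ := hA H M p hpc hPA B φ hφ hφc hφp hnt
        have h := fA B n hn K w hw 2 (by norm_num) hwb m Y
        refine h.trans (mul_le_mul_of_nonneg_right ?_ (norm_nonneg _))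
        have : 0 ≤ C₀ * 2 ^ 23 := by positivity
        linarith
      · have hmc := hB H M p hpc hPB B φ hφ hφc hφp
        have h := hFB B hmc K w hw 2 (by norm_num) hwb m Y
        refine h.trans (mul_le_mul_of_nonneg_right ?_ (norm_nonneg _))
        linarith
  have h := hin H M.toStarSubalgebra (inc M) E E' T ((4 + C₀ * 2 ^ 23) * (3 * d)) m
    (by positivity) (fun a => by
      rw [hE'a]
      change E a = E a - (T * (a : H →L[ℂ] H) - (a : H →L[ℂ] H) * T) +
        (T * (a : H →L[ℂ] H) - (a : H →L[ℂ] H) * T)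
      abel) key
  intro Y
  refine (h Y).trans (mul_le_mul_of_nonneg_right ?_ (norm_nonneg _))
  nlinarith [norm_nonneg T]

/-- Every bounded derivation of a unital C*-algebra is inner. -/
theorem asm_U (R : ℝ) (hR : 0 ≤ R)
    (hX : ∀ (A : Type) [CStarAlgebra A] (H : Type) [NormedAddCommGroup H]
      [InnerProductSpace ℂ H] [CompleteSpace H] (π : A →⋆ₐ[ℂ] (H →L[ℂ] H))
      (D : A →ₗ[ℂ] (H →L[ℂ] H)) (d : ℝ), 0 ≤ d →
      IsDerB π D d → ∃ (W : VonNeumannAlgebra H) (E : W.toStarSubalgebra →ₗ[ℂ] (H →L[ℂ] H)),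
      IsDerB (inc W) E (R * d) ∧ ∀ a : A, ∃ x : W.toStarSubalgebra,
        (x : H →L[ℂ] H) = π a ∧ E x = D a)
    (hW : W_lvl) (hres : W_res) (huD : W_uD) (hS : S_final.{0, 0}) (hDh : D_hom.{0, 0})
    (hDi : D_inner.{0, 0}) : U_main := by
  obtain ⟨C, hC, hW⟩ := hW
  intro A _ H _ _ _ π D d hd hD
  letI : PartialOrder A := CStarAlgebra.spectralOrder A
  haveI : StarOrderedRing A := CStarAlgebra.spectralOrderedRing A
  obtain ⟨W, E, hE, hEx⟩ := hX A H π D d hd hD
  letI : PartialOrder W.toStarSubalgebra := CStarAlgebra.spectralOrder W.toStarSubalgebra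
  haveI : StarOrderedRing W.toStarSubalgebra :=
    CStarAlgebra.spectralOrderedRing W.toStarSubalgebra
  have hmem : ∀ a, π a ∈ W.toStarSubalgebra := fun a => by
    obtain ⟨x, hx, _⟩ := hEx a
    rw [← hx]
    exact x.2
  let φ : A →⋆ₐ[ℂ] W.toStarSubalgebra := π.codRestrict W.toStarSubalgebra hmem
  have hφ : ∀ a, ((φ a : W.toStarSubalgebra) : H →L[ℂ] H) = π a := fun a => rfl
  have hDE : ∀ a, D a = E (φ a) := fun a => by
    obtain ⟨x, hx, hx'⟩ := hEx a
    rw [← hx']
    congr 1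
    exact Subtype.ext (hx.trans (hφ a).symm)
  have hlvl : ∀ m, LvlBd (uD π D) m (1 + C * (R * d)) := fun m =>
    huD H A π D _ m (by positivity)
      (hres H A W.toStarSubalgebra φ D E _ m (by positivity) hDE (hW H W E (R * d)
        (by positivity) hE m))
  obtain ⟨hh1, _⟩ := hDh A H π D hD.leib d hd hD.bound
  obtain ⟨S, S', hSS', hS'S, _, _, hst⟩ := hS A (HH (Fin 2) H) (uD π D) hh1
    (1 + C * (R * d)) (by nlinarith [mul_nonneg hC (mul_nonneg hR hd)]) hlvl
  obtain ⟨T, _, hT⟩ := hDi A H π D hD.leib S S' hSS' hS'S hst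
  exact ⟨T, hT⟩

end H710R2.DP
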