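import Mathlib
import Pool.Agent.H710R2.DP.Asm
import Pool.Agent.H666R2.DP.Z1
import Pool.Agent.H372R2.DP.Z2
import Pool.Agent.H467R2.DP.Z3
import Pool.Agent.H804R2.DP.Ulim
import Pool.Agent.H298R2.DP.Zero
import Pool.Agent.H558R2.DP.Glue
import Pool.Agent.H57R2.DP.RComm
import Pool.Agent.H53R2.DP.R2
import Pool.Agent.H578R2.DP.RB
import Pool.Agent.H902R2.DP.RA
import Pool.Agent.H134R3.DP.W1
import Pool.Agent.H578R2.DP.Unit
import Pool.Agent.H778R2.DP.Span
import Pool.Agent.H503R2.DP.V02
import Pool.Agent.H231R2.DP.V03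
import Pool.Agent.H666R2.DP.V04
import Pool.Agent.H459R3.DPV05
import Pool.Agent.H778R2.DP.Half
import Pool.Agent.H236R2.DP.V07
import Pool.Agent.H896R2.DP.V08
import Pool.Agent.H8R2.DP.Vabel
import Pool.Agent.H372R2.DP.V10
import Pool.Agent.H747R2.DP.V11
import Pool.Agent.H134R3.DP.V12
import Pool.Agent.H92R2.DP.V13
import Pool.Agent.H134R3.DP.F1
import Pool.Agent.H482R2.DP.Fconst
import Pool.Agent.H418R2.DP.Ftrace
import Pool.Agent.H747R2.DP.F4
import Pool.Agent.H479R2.DP.F5
import Pool.Agent.H711R2.KG.P.A3
import Pool.Agent.H711R2.KG.P.A4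
import Pool.Agent.H711R2.KG.P.A5
import Pool.Agent.H711R2.KG.P.B9
import Pool.Agent.H770R2.Kad.Asm
import Pool.Agent.H759R2.Kad.Assemble4

/-!
Final assembly: every bounded derivation of a C*-algebra into the bounded operators on a Hilbert
space, relative to a representation, is inner.
-/

noncomputable section

namespace H710R2.DP

open H759R2.Kad

universe u v

/-- The noncommutative Grothendieck inequality used. -/
theorem fin_gt : St_gt.{u, v} := prove_gt (prove_gtsa prove_fourth prove_trunc)

/-- Comparison theory of projections. -/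
theorem fin_comp : V_comp := dp_Vcomp dp_Vsupp prove5_polar prove5_chain

/-- Approximation of central elements by finite combinations of central projections. -/
theorem fin_bin : Z_bin := dp_bin prove5_range

/-- The Dixmier approximation theorem. -/
theorem fin_dix : V_dix.{0} := dp_Vdix (dp_Vstep fin_comp prove5_range)

/-- The structure theorem. -/
theorem fin_struct : V_struct.{0} :=
  dp_Vstruct (dp_VB1 (dp_Vmu (dp_Vhalf (dp_Vab dp_Vsupp prove5_polar fin_bin) prove5_chain)))
    (dp_Vabel dp_Vsupp dp_Vspan (dp_Vabsorb (dp_Vsub dp_Vsupp) fin_comp))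
    (dp_Vinf dp_Vsum) dp_Vfin

/-- Removing the centre. -/
theorem fin_zero : Z_zero := dp_zero (dp_span fin_bin) dp_fin dp_ulim

/-- Fibre algebras of the second kind. -/
theorem fin_FB : FA_B.{0, 0} :=
  asm_FA_B main_final prove3_iso H711R2.KG.p_A_word
    (H711R2.KG.p_A_mat fin_gt (H711R2.KG.p_A_col fin_gt)) dp_Ftwo dp_Fconst dp_Ftrace
    dp_Fbigorth dp_Fwords

/-- Fibre algebras of the first kind. -/
theorem fin_FA : FA_A.{0, 0} :=
  asm_FA_A (H711R2.KG.p_B_fin prove3_sim prove3_transport) prove3_iso

/-- Uniform bounds for the amplifications of derivations of von Neumann algebras. -/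
theorem fin_W : W_lvl :=
  asm_W fin_zero dp_glue fin_struct H770R2.Kad.p_fib dp_RA (dp_RB fin_dix dp_comm dp_mat)
    fin_FA fin_FB dp_inner

/-- Derivations of unital C*-algebras relative to unital representations are inner. -/
theorem fin_U : U_main :=
  asm_U 2 (by norm_num) H770R2.Kad.x_ext2 fin_W dp_res dp_uD final_similar prove4_dhom
    prove4_dinner

/-- Derivations of arbitrary C*-algebras are inner. -/
theorem fin_unit : U_unit := dp_unit fin_U

end H710R2.DP
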